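import Pool.Agent.H417_rb.Count

set_option autoImplicit false

/-!
# Starting points of non-terminating ceiling iterations: a power saving
-/

namespace Pool.Agent.Results.MP_b27257_nt.PowerSavingOrbits

open Finset

/-- `T x = ⌈p x / q⌉` -/
def T (p q x : ℕ) : ℕ := ⌈((p * x : ℕ) : ℚ) / (q : ℚ)⌉₊

lemma T_eq (p q x : ℕ) (hq : 1 ≤ q) : T p q x = Pool.Agent.H417_rb.g p q x := by
  unfold T
  symm
  apply Pool.Agent.H417_rb.g_eq hq
  · have h := Nat.le_ceil (((p * x : ℕ) : ℚ) / (q : ℚ))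
    have hq0 : (0:ℚ) < q := by exact_mod_cast hq
    rw [div_le_iff₀ hq0] at h
    rw [mul_comm q]
    exact_mod_cast h
  · have hq0 : (0:ℚ) < q := by exact_mod_cast hq
    have h := Nat.ceil_lt_add_one (a := ((p * x : ℕ) : ℚ) / (q : ℚ)) (by positivity)
    have h2 : (⌈((p * x : ℕ) : ℚ) / (q : ℚ)⌉₊ : ℚ) * q < ((p * x : ℕ) : ℚ) + q := by
      calc (⌈((p * x : ℕ) : ℚ) / (q : ℚ)⌉₊ : ℚ) * q < (((p * x : ℕ) : ℚ) / (q : ℚ) + 1) * q := by
            gcongr
        _ = _ := by field_simp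
    rw [mul_comm q]
    exact_mod_cast h2

/-- Let `p > q > 1` be coprime and let `S` be a set of residues modulo `q` with
`2 ≤ |S| ≤ q - 1`. There are `C > 0` and `δ > 0` such that every interval `[a, a + H)`, `H ≥ 1`,
contains at most `C * H ^ (log |S| / log q - δ)` integers `x` for which the process does not
terminate, i.e. all iterates `T^n x` have their residue modulo `q` in `S`. -/
theorem result (p q : ℕ) (hq : 1 < q) (hpq : q < p) (hc : p.Coprime q) (S : Finset ℕ)
    (hS : ∀ s ∈ S, s < q) (hS2 : 2 ≤ S.card) (hSq : S.card < q) :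
    ∃ C δ : ℝ, 0 < C ∧ 0 < δ ∧ δ < Real.log S.card / Real.log q ∧ ∀ a H : ℕ, 1 ≤ H →
      ({x : ℕ | a ≤ x ∧ x < a + H ∧ ∀ n, (T p q)^[n] x % q ∈ S}.ncard : ℝ) ≤
        C * (H : ℝ) ^ (Real.log S.card / Real.log q - δ) := by
  classical
  have hq1 : 1 ≤ q := by omega
  have hTg : T p q = Pool.Agent.H417_rb.g p q := funext fun x => T_eq p q x hq1
  -- the set of digits
  set f : ℕ → ℕ := fun s => (p * (q - s)) % q with hf
  have hqi : (q:ℤ) ∣ q := dvd_refl _
  set D := S.image f with hD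
  have hfinj : Set.InjOn f (S : Set ℕ) := by
    intro s hs t ht h
    have hs := hS s (Finset.mem_coe.mp hs)
    have ht := hS t (Finset.mem_coe.mp ht)
    have h1 : p * (q - s) ≡ p * (q - t) [MOD q] := h
    have h2 : (q - s) ≡ (q - t) [MOD q] :=
      Nat.ModEq.cancel_left_of_coprime (by rw [Nat.gcd_comm]; exact hc) h1
    rcases le_total s t with hst | hst
    · have h3 := (Nat.modEq_iff_dvd' (by omega : q - t ≤ q - s)).mp h2.symm
      by_contra hne
      have h4 := Nat.le_of_dvd (by omega) h3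
      omega
    · have h3 := (Nat.modEq_iff_dvd' (by omega : q - s ≤ q - t)).mp h2
      by_contra hne
      have h4 := Nat.le_of_dvd (by omega) h3
      omega
  have hDcard : D.card = S.card := Finset.card_image_of_injOn hfinj
  have hDq : ∀ b ∈ D, b < q := by
    intro b hb
    rw [hD, Finset.mem_image] at hb
    obtain ⟨s, _, rfl⟩ := hb
    exact Nat.mod_lt _ (by omega)
  obtain ⟨C, κ, hC, hκ0, hκ1, hcount⟩ := Pool.Agent.H417_rb.count_restricted hq hpq hc hDq
    (by omega) (by omega) (le_refl 1)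
  rw [hDcard] at hcount
  set B := S.card with hB
  have hq0 : (0:ℝ) < q := by exact_mod_cast (by omega : 0 < q)
  have hqgt : (1:ℝ) < q := by exact_mod_cast hq
  have hlogq : 0 < Real.log q := Real.log_pos hqgt
  have hB0 : (0:ℝ) < B := by exact_mod_cast (by omega : 0 < B)
  have hB1 : (1:ℝ) < B := by exact_mod_cast (by omega : 1 < B)
  set γ := Real.log (B : ℝ) / Real.log q with hγ
  have hγ0 : 0 < γ := div_pos (Real.log_pos hB1) hlogq
  have hγ1 : γ ≤ 1 := by
    rw [hγ, div_le_one hlogq]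
    exact Real.log_le_log hB0 (by exact_mod_cast hSq.le)
  set δ0 := - Real.log κ / Real.log q with hδ0
  have hδ00 : 0 < δ0 := div_pos (by linarith [Real.log_neg hκ0 hκ1]) hlogq
  set δ := min δ0 (γ / 2) with hδ
  have hδpos : 0 < δ := lt_min hδ00 (by positivity)
  have hδγ : δ < γ := lt_of_le_of_lt (min_le_right _ _) (by linarith)
  have hexp0 : 0 ≤ γ - δ := by linarith
  have hexp1 : γ - δ ≤ 1 := by linarith
  have hκB : κ * B ≤ (q:ℝ) ^ (γ - δ) := by
    have h1 : (B:ℝ) = (q:ℝ) ^ γ := by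
      rw [Real.rpow_def_of_pos hq0, hγ, mul_div_cancel₀ _ hlogq.ne', Real.exp_log hB0]
    have h2 : κ = (q:ℝ) ^ (-δ0) := by
      rw [Real.rpow_def_of_pos hq0, hδ0]
      have : Real.log q * -(-Real.log κ / Real.log q) = Real.log κ := by field_simp
      rw [this, Real.exp_log hκ0]
    have h3 : (q:ℝ) ^ (-δ0) ≤ (q:ℝ) ^ (-δ) :=
      Real.rpow_le_rpow_of_exponent_le hqgt.le (by linarith [min_le_left δ0 (γ/2)])
    calc κ * B ≤ (q:ℝ) ^ (-δ) * (q:ℝ) ^ γ := by rw [h1]; gcongr; rw [h2]; exact h3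
      _ = (q:ℝ) ^ (γ - δ) := by rw [← Real.rpow_add hq0]; congr 1; ring
  refine ⟨C * q, δ, by positivity, hδpos, hδγ, ?_⟩
  intro a H hH
  set k := Nat.clog q H with hk
  have hk1 : H ≤ q ^ k := Nat.le_pow_clog hq _
  have hk2 : q ^ k ≤ q * H := by
    rcases Nat.lt_or_ge 1 H with h | h
    · have h1 := Nat.pow_pred_clog_lt_self (b := q) hq h
      rw [← hk] at h1
      have hkpos : 0 < k := Nat.clog_pos hq (by omega)
      have h2 : q ^ k = q * q ^ (k - 1) := by
        obtain ⟨K', hK'⟩ := Nat.exists_eq_succ_of_ne_zero hkpos.ne'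
        rw [hK', Nat.succ_sub_one, pow_succ']
      rw [h2]
      apply Nat.mul_le_mul_left
      exact h1.le
    · have : k = 0 := by
        rw [hk]
        exact Nat.clog_of_right_le_one h q
      rw [this, pow_zero]
      nlinarith
  set N := (Finset.Ico a (a + H)).filter (fun x => ∀ n, (T p q)^[n] x % q ∈ S) with hN
  have hset : {x : ℕ | a ≤ x ∧ x < a + H ∧ ∀ n, (T p q)^[n] x % q ∈ S} = (N : Set ℕ) := by
    ext x
    simp only [hN, Set.mem_ofPred_eq, Finset.coe_filter, Finset.mem_Ico, and_assoc]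
  rw [hset, Set.ncard_coe_finset]
  have hbound : (N.card : ℝ) ≤ C * (κ * B) ^ k := by
    apply hcount k (2 * k) (by omega) N
    · intro m hm n hn
      simp only [hN, Finset.mem_filter, Finset.mem_Ico] at hm hn
      omega
    · intro n hn i _
      simp only [hN, Finset.mem_filter] at hn
      have h1 := hn.2 i
      rw [hTg] at h1
      set y := (Pool.Agent.H417_rb.g p q)^[i] n with hy
      rw [hD, Finset.mem_image]
      refine ⟨y % q, h1, ?_⟩
      -- digit = p (q - y % q) mod q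
      have h2 := Pool.Agent.H417_rb.dig_spec (p := p) hq1 y
      have h3 := Pool.Agent.H417_rb.dig_lt (p := p) hq1 y
      have h4 : y % q < q := Nat.mod_lt _ (by omega)
      have h5 : p * (q - y % q) ≡ Pool.Agent.H417_rb.dig p q y [MOD q] := by
        apply Nat.ModEq.add_left_cancel' (p * y)
        have e1 : p * y + p * (q - y % q) = p * (q * (y / q) + q) := by
          rw [← mul_add]
          congr 1
          have := Nat.div_add_mod y q
          omega
        rw [e1, ← h2]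
        have e2 : p * (q * (y / q) + q) = q * (p * (y / q + 1)) := by ring
        rw [e2]
        exact (Nat.modEq_zero_iff_dvd.mpr (dvd_mul_right _ _)).trans
          (Nat.modEq_zero_iff_dvd.mpr (dvd_mul_right _ _)).symm
      have h6 : p * (q - y % q) % q = Pool.Agent.H417_rb.dig p q y % q := h5
      rw [Nat.mod_eq_of_lt h3] at h6
      exact h6
  calc (N.card : ℝ) ≤ C * (κ * B) ^ k := hbound
    _ ≤ C * ((q:ℝ) ^ (γ - δ)) ^ k := by gcongr
    _ = C * ((q:ℝ) ^ k) ^ (γ - δ) := by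
        rw [← Real.rpow_natCast, ← Real.rpow_natCast, ← Real.rpow_mul hq0.le,
          ← Real.rpow_mul hq0.le, mul_comm (γ - δ)]
    _ ≤ C * ((q:ℝ) * (H : ℝ)) ^ (γ - δ) := by
        have h1 : ((q:ℝ) ^ k) ≤ (q:ℝ) * (H : ℝ) := by exact_mod_cast hk2
        gcongr
    _ = C * ((q:ℝ) ^ (γ - δ) * (H : ℝ) ^ (γ - δ)) := by
        rw [Real.mul_rpow (by positivity) (by positivity)]
    _ ≤ C * ((q:ℝ) * (H : ℝ) ^ (γ - δ)) := by
        have h1 : (q:ℝ) ^ (γ - δ) ≤ q := by
          calc (q:ℝ) ^ (γ - δ) ≤ (q:ℝ) ^ (1:ℝ) :=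
                Real.rpow_le_rpow_of_exponent_le hqgt.le hexp1
            _ = _ := Real.rpow_one _
        gcongr
    _ = C * q * (H : ℝ) ^ (γ - δ) := by ring

end Pool.Agent.Results.MP_b27257_nt.PowerSavingOrbits
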